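import Pool.Agent.U962.DM.Main

/-!
# The exact valuations for `p = 3`
-/

set_option autoImplicit false

namespace Pool.Agent.U962.DM

open PowerSeries Finset Pool.Agent.R443.PS

theorem F_zero (m : ℕ) : coeff 0 (F m) = 1 := by
  have h : constantCoeff (iv 1) = (1 : ℤ) := by
    have := congrArg constantCoeff one_iv
    simpa using this
  rw [F, coeff_mk, d3, Ps, coeff_zero_eq_constantCoeff_apply]
  simp [h]

theorem g_pow_sub (m : ℕ) : ∃ q : ℤ⟦X⟧, (1 + 3 * v) ^ m = 1 + ((3 : ℤ) : ℤ⟦X⟧) * q := by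
  obtain ⟨q, hq⟩ := sub_dvd_pow_sub_pow (1 + 3 * v : ℤ⟦X⟧) 1 m
  refine ⟨v * q, ?_⟩
  rw [one_pow] at hq
  have : (1 + 3 * v : ℤ⟦X⟧) ^ m = 1 + ((1 + 3 * v) ^ m - 1) := by ring
  rw [this, hq]
  push_cast
  ring

theorem F_dvd (m : ℕ) {n : ℕ} (hn : n ≠ 0) : (3 : ℤ) ∣ coeff n (F m) := by
  induction n using Nat.strong_induction_on with
  | _ n ih =>
    obtain ⟨q, hq⟩ := g_pow_sub m
    have e : F m = ex (F m) + ((3 : ℤ) : ℤ⟦X⟧) * (ex (F m) * q) := by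
      conv_lhs => rw [F_eq, hq]
      ring
    rw [e, map_add, coeff_int_mul]
    apply dvd_add _ (Dvd.intro _ rfl)
    by_cases h : 3 ∣ n
    · obtain ⟨k, rfl⟩ := h
      rw [ex, coeff_expand_mul]
      exact ih k (by omega) (by omega)
    · rw [ex, coeff_expand_of_not_dvd 3 three_ne_zero _ h]
      exact dvd_zero _

theorem vF_dvd (m n : ℕ) : (3 : ℤ) ∣ coeff n (v * F m) - n := by
  have e : coeff n (v * F m) - n = coeff n (v * (F m - 1)) := by
    rw [mul_sub, mul_one, map_sub, coeff_v]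
  rw [e, coeff_mul]
  apply Finset.dvd_sum
  intro p _
  apply Dvd.dvd.mul_left
  by_cases h : p.2 = 0
  · rw [h, map_sub, F_zero]
    simp
  · rw [map_sub, coeff_one, if_neg h, sub_zero]
    exact F_dvd m h

theorem diff_one (m : ℕ) (hm : 1 ≤ m) (s n : ℕ) : (3 : ℤ) ^ (ee m + s + 1) ∣
    d3 m (3 ^ (s + 1) * n) - d3 m (3 ^ s * n) -
      a 1 m * (3 ^ s * (1 + m) ^ s) * coeff n (v * F m) := by
  obtain ⟨r, hr, h1⟩ := T_one m hm
  obtain ⟨r', hr', h2⟩ := T_iter_v m s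
  have ha : (3 : ℤ) ^ ee m ∣ a 1 m := by
    have h3 : (3 : ℤ) ^ ee m ∣ 2 * a 1 m := by
      rw [a_one m hm]
      have hv1 : (3 : ℤ) ^ padicValNat 3 m ∣ (m : ℤ) := by
        exact_mod_cast (pow_padicValNat_dvd : 3 ^ padicValNat 3 m ∣ m)
      have hv2 : (3 : ℤ) ^ padicValNat 3 (m + 1) ∣ (m : ℤ) + 1 := by
        exact_mod_cast (pow_padicValNat_dvd : 3 ^ padicValNat 3 (m + 1) ∣ m + 1)
      have := mul_dvd_mul (mul_dvd_mul (dvd_refl (9 : ℤ)) (pow_dvd_pow_of_dvd hv1 2)) hv2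
      have e : (3 : ℤ) ^ ee m = 9 * (3 ^ padicValNat 3 m) ^ 2 * 3 ^ padicValNat 3 (m + 1) := by
        unfold ee
        rw [pow_add, pow_add, pow_mul']
        ring
      rw [e]
      exact this
    have hcop : IsCoprime ((3 : ℤ) ^ ee m) 2 := by
      apply IsCoprime.pow_left
      exact ⟨1, -1, by norm_num⟩
    exact hcop.dvd_of_dvd_mul_left h3
  have e : d3 m (3 ^ (s + 1) * n) - d3 m (3 ^ s * n) -
      a 1 m * (3 ^ s * (1 + m) ^ s) * coeff n (v * F m) =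
      coeff n ((((a 1 m : ℤ) : ℤ⟦X⟧) * r') * F m) + coeff n ((T m)^[s] r * F m) := by
    rw [d3_eq, d3_eq, Function.iterate_succ_apply, h1, T_iter_add, T_iter_add, T_iter_int, h2]
    have e2 : ((T m)^[s] 1 + ((a 1 m : ℤ) : ℤ⟦X⟧) * (((3 ^ s * (1 + m) ^ s : ℤ) : ℤ⟦X⟧) * v + r') +
        (T m)^[s] r) * F m = (T m)^[s] 1 * F m +
        ((a 1 m * (3 ^ s * (1 + m) ^ s) : ℤ) : ℤ⟦X⟧) * (v * F m) +
        (((a 1 m : ℤ) : ℤ⟦X⟧) * r') * F m + (T m)^[s] r * F m := by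
      push_cast
      ring
    rw [e2, map_add, map_add, map_add, coeff_int_mul]
    ring
  rw [e]
  apply dvd_add
  · have := L_pow_mul ha hr'
    have h4 := dvd_coeff this (F m) n
    rwa [show s + 1 + ee m = ee m + s + 1 by ring] at h4
  · have := T_iter_mem (m := m) (s := s) hr
    have h4 := dvd_coeff this (F m) n
    rwa [show ee m + 1 + s = ee m + s + 1 by ring] at h4

theorem a_one_exact (m : ℕ) (hm : 1 ≤ m) : ∃ u : ℤ, ¬ (3 : ℤ) ∣ u ∧ a 1 m = 3 ^ ee m * u := by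
  have hfact : Fact (Nat.Prime 3) := ⟨Nat.prime_three⟩
  obtain ⟨t1, m1, h1, e1⟩ := Nat.exists_eq_pow_mul_and_not_dvd (show m ≠ 0 by omega) 3 (by norm_num)
  obtain ⟨t2, m2, h2, e2⟩ := Nat.exists_eq_pow_mul_and_not_dvd (show m + 1 ≠ 0 by omega) 3
    (by norm_num)
  have hm1 : m1 ≠ 0 := by rintro rfl; simp at h1
  have hm2 : m2 ≠ 0 := by rintro rfl; simp at h2
  have f1 : padicValNat 3 m = t1 := by
    rw [e1, padicValNat.mul (by positivity) hm1, padicValNat.prime_pow,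
      padicValNat.eq_zero_of_not_dvd h1, add_zero]
  have f2 : padicValNat 3 (m + 1) = t2 := by
    rw [e2, padicValNat.mul (by positivity) hm2, padicValNat.prime_pow,
      padicValNat.eq_zero_of_not_dvd h2, add_zero]
  have h3 := a_one m hm
  have g1 : (m : ℤ) = 3 ^ t1 * m1 := by exact_mod_cast e1
  have g2 : (m : ℤ) + 1 = 3 ^ t2 * m2 := by exact_mod_cast e2
  have h4 : 2 * a 1 m = 3 ^ ee m * ((m1 : ℤ) ^ 2 * m2) := by
    rw [h3, g2, g1]
    unfold ee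
    rw [f1, f2, pow_add, pow_add, pow_mul']
    ring
  have hcop : IsCoprime (2 : ℤ) ((3 : ℤ) ^ ee m) := by
    apply IsCoprime.pow_right
    exact ⟨-1, 1, by norm_num⟩
  have h5 : (3 : ℤ) ^ ee m ∣ a 1 m :=
    hcop.symm.dvd_of_dvd_mul_left (h4 ▸ Dvd.intro _ rfl)
  obtain ⟨u, hu⟩ := h5
  refine ⟨u, ?_, hu⟩
  intro h6
  rw [hu] at h4
  have h7 : 2 * u = (m1 : ℤ) ^ 2 * m2 := by
    have : (3 : ℤ) ^ ee m * (2 * u) = 3 ^ ee m * ((m1 : ℤ) ^ 2 * m2) := by rw [← h4]; ring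
    exact mul_left_cancel₀ (pow_ne_zero _ (by norm_num)) this
  have h8 : (3 : ℤ) ∣ (m1 : ℤ) ^ 2 * m2 := h7 ▸ Dvd.dvd.mul_left h6 2
  have hp : Prime (3 : ℤ) := Int.prime_three
  rcases hp.dvd_or_dvd h8 with h | h
  · exact h1 (by exact_mod_cast hp.dvd_of_dvd_pow h)
  · exact h2 (by exact_mod_cast h)

/-- the valuation of `d_m(9n) - d_m(n)`, `p = 3` -/
theorem main (m n : ℕ) (hm : 1 ≤ m) (hn : 1 ≤ n) :
    (3 : ℤ) ^ (ee m + padicValNat 3 n) ∣ d3 m (9 * n) - d3 m n ∧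
    ((m % 3 ≠ 2 ∨ ¬ 3 ∣ n) →
      ¬ (3 : ℤ) ^ (ee m + padicValNat 3 n + 1) ∣ d3 m (9 * n) - d3 m n) := by
  have hfact : Fact (Nat.Prime 3) := ⟨Nat.prime_three⟩
  obtain ⟨s, k, hk, rfl⟩ := Nat.exists_eq_pow_mul_and_not_dvd (show n ≠ 0 by omega) 3 (by norm_num)
  have hk0 : k ≠ 0 := by rintro rfl; simp at hk
  have f1 : padicValNat 3 (3 ^ s * k) = s := by
    rw [padicValNat.mul (by positivity) hk0, padicValNat.prime_pow,
      padicValNat.eq_zero_of_not_dvd hk, add_zero]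
  rw [f1]
  have h1 := diff_one m hm s k
  have h2 := diff_one m hm (s + 1) k
  obtain ⟨u, hu, ha⟩ := a_one_exact m hm
  have h3 : (3 : ℤ) ^ (ee m + s + 1) ∣
      d3 m (3 ^ (s + 1 + 1) * k) - d3 m (3 ^ (s + 1) * k) := by
    have h4 : (3 : ℤ) ^ (ee m + s + 1) ∣
        a 1 m * (3 ^ (s + 1) * (1 + m) ^ (s + 1)) * coeff k (v * F m) := by
      rw [ha, show ee m + s + 1 = ee m + (s + 1) by ring, pow_add]
      exact ⟨u * (1 + m) ^ (s + 1) * coeff k (v * F m), by ring⟩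
    have h5 := (pow_dvd_pow (3 : ℤ) (show ee m + s + 1 ≤ ee m + (s + 1) + 1 by omega)).trans h2
    have := dvd_add h5 h4
    rwa [sub_add_cancel] at this
  have e9 : 9 * (3 ^ s * k) = 3 ^ (s + 1 + 1) * k := by ring
  rw [e9]
  set c : ℤ := u * (1 + m) ^ s * coeff k (v * F m) with hc
  have h6 : (3 : ℤ) ^ (ee m + s + 1) ∣
      d3 m (3 ^ (s + 1 + 1) * k) - d3 m (3 ^ s * k) - 3 ^ (ee m + s) * c := by
    have := dvd_add h1 h3
    have e : d3 m (3 ^ (s + 1) * k) - d3 m (3 ^ s * k) -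
        a 1 m * (3 ^ s * (1 + m) ^ s) * coeff k (v * F m) +
        (d3 m (3 ^ (s + 1 + 1) * k) - d3 m (3 ^ (s + 1) * k)) =
        d3 m (3 ^ (s + 1 + 1) * k) - d3 m (3 ^ s * k) - 3 ^ (ee m + s) * c := by
      rw [ha, hc, pow_add]
      ring
    rwa [e] at this
  constructor
  · have h7 : (3 : ℤ) ^ (ee m + s) ∣ 3 ^ (ee m + s) * c := Dvd.intro _ rfl
    have h8 := (pow_dvd_pow (3 : ℤ) (show ee m + s ≤ ee m + s + 1 by omega)).trans h6
    have := dvd_add h8 h7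
    rwa [sub_add_cancel] at this
  · intro hor h7
    have h8 : (3 : ℤ) ^ (ee m + s) * 3 ∣ 3 ^ (ee m + s) * c := by
      rw [← pow_succ]
      have := dvd_sub h7 h6
      rwa [sub_sub_cancel] at this
    have h9 : (3 : ℤ) ∣ c :=
      (mul_dvd_mul_iff_left (pow_ne_zero _ (by norm_num : (3 : ℤ) ≠ 0))).mp h8
    have hp : Prime (3 : ℤ) := Int.prime_three
    rw [hc] at h9
    rcases hp.dvd_or_dvd h9 with h | h
    · rcases hp.dvd_or_dvd h with h | h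
      · exact hu h
      · rcases hor with h10 | h10
        · have h11 : (3 : ℤ) ∣ 1 + m := hp.dvd_of_dvd_pow h
          omega
        · rcases s with _ | s
          · rw [pow_zero] at h
            norm_num at h
          · exact h10 ⟨3 ^ s * k, by ring⟩
    · have h10 := dvd_sub h (vF_dvd m k)
      rw [sub_sub_cancel] at h10
      exact hk (by exact_mod_cast h10)

end Pool.Agent.U962.DM
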