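import Mathlib
import Pool.Agent.R443.PS

/-!
# The operator `U` (coefficients of index divisible by 3) on polynomials in `x / (1 - x)^2`
-/

set_option autoImplicit false

namespace Pool.Agent.U962.DM

open PowerSeries Finset Pool.Agent.R443.PS

theorem coeff_int_mul (a : ℤ) (f : ℤ⟦X⟧) (n : ℕ) : coeff n ((a : ℤ⟦X⟧) * f) = a * coeff n f := by
  rw [← zsmul_eq_mul, map_zsmul, smul_eq_mul]

/-- `U f` has the coefficients `f_0, f_3, f_6, …` -/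
noncomputable def U : ℤ⟦X⟧ →ₗ[ℤ] ℤ⟦X⟧ where
  toFun f := mk fun n => coeff (3 * n) f
  map_add' f g := by ext n; simp
  map_smul' a f := by
    ext n
    rw [coeff_mk, zsmul_eq_mul, coeff_int_mul, RingHom.id_apply, zsmul_eq_mul, coeff_int_mul,
      coeff_mk]

theorem coeff_U (f : ℤ⟦X⟧) (n : ℕ) : coeff n (U f) = coeff (3 * n) f := by simp [U]

/-- `x ↦ x^3` -/
noncomputable def ex : ℤ⟦X⟧ →ₐ[ℤ] ℤ⟦X⟧ := expand 3 three_ne_zero

theorem U_ex_mul (g f : ℤ⟦X⟧) : U (ex g * f) = g * U f := by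
  ext n
  rw [coeff_U, ex, coeff_expand_mul' three_ne_zero, coeff_mul,
    Finset.Nat.sum_antidiagonal_eq_sum_range_succ_mk, Nat.mul_div_cancel_left _ (by norm_num)]
  apply Finset.sum_congr rfl
  intro b _
  rw [coeff_U, Nat.mul_sub]

theorem U_int_mul (c : ℤ) (f : ℤ⟦X⟧) : U ((c : ℤ⟦X⟧) * f) = (c : ℤ⟦X⟧) * U f := by
  rw [← zsmul_eq_mul, map_smul, zsmul_eq_mul]

/-- `v = x / (1 - x)^2` -/
noncomputable def v : ℤ⟦X⟧ := X * iv 1 ^ 2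

theorem one_iv : (1 - X : ℤ⟦X⟧) * iv 1 = 1 := by
  have h := mul_iv (d := 1) one_ne_zero
  rwa [pow_one] at h

theorem ex_iv : ex (iv 1) = iv 3 := by
  have h := congrArg ex one_iv
  rw [map_mul, map_sub, map_one, ex, expand_X] at h
  have h2 := eq_iv_pow (d := 3) (k := 1) three_ne_zero (f := expand 3 three_ne_zero (iv 1))
    (by rw [pow_one, mul_comm]; exact h)
  rw [ex, h2, pow_one]

theorem iv3 : (1 + X + X ^ 2 : ℤ⟦X⟧) * iv 3 = iv 1 := by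
  have h3 : (1 - X ^ 3 : ℤ⟦X⟧) * iv 3 = 1 := mul_iv three_ne_zero
  have h1 := one_iv
  calc (1 + X + X ^ 2 : ℤ⟦X⟧) * iv 3 = ((1 - X) * iv 1) * ((1 + X + X ^ 2 : ℤ⟦X⟧) * iv 3) := by
        rw [h1, one_mul]
    _ = iv 1 * ((1 - X ^ 3 : ℤ⟦X⟧) * iv 3) := by ring
    _ = iv 1 := by rw [h3, mul_one]

/-- `1 + 3 v = (1 - x^3) / (1 - x)^3` -/
theorem g_eq : (1 + 3 * v : ℤ⟦X⟧) = iv 1 ^ 2 * (1 + X + X ^ 2) := by
  have h1 := one_iv
  calc (1 + 3 * v : ℤ⟦X⟧) = ((1 - X) * iv 1) ^ 2 + 3 * (X * iv 1 ^ 2) := by rw [h1, v]; ring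
    _ = _ := by ring

theorem g_mul_iv3 : (1 + 3 * v : ℤ⟦X⟧) * iv 3 = iv 1 ^ 3 := by
  rw [g_eq, mul_assoc, iv3]
  ring

theorem ex_v : ex v = X ^ 3 * iv 3 ^ 2 := by
  rw [v, map_mul, map_pow, ex_iv]
  congr 1
  rw [ex, expand_X]

theorem cubic : v ^ 3 = ex v * (1 + 3 * v) ^ 2 := by
  calc v ^ 3 = X ^ 3 * (iv 1 ^ 3) ^ 2 := by rw [v]; ring
    _ = X ^ 3 * ((1 + 3 * v) * iv 3) ^ 2 := by rw [g_mul_iv3]
    _ = ex v * (1 + 3 * v) ^ 2 := by rw [ex_v]; ring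

theorem U_one : U 1 = 1 := by
  ext n
  rw [coeff_U, coeff_one, coeff_one]
  by_cases h : n = 0
  · simp [h]
  · simp [h]

theorem coeff_v (n : ℕ) : coeff n v = (n : ℤ) := by
  rcases n with _ | n
  · simp [v]
  · rw [v, coeff_succ_X_mul, coeff_iv_pow_succ one_ne_zero]
    simp
    ring

theorem coeff_v_sq (n : ℕ) : coeff n (v ^ 2) = ((Nat.choose (n + 1) 3 : ℕ) : ℤ) := by
  have e : v ^ 2 = X * (X * iv 1 ^ 4) := by rw [v]; ring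
  rcases n with _ | _ | n
  · rw [e]
    simp [Nat.choose]
  · rw [e, coeff_succ_X_mul]
    simp [Nat.choose]
  · rw [e, coeff_succ_X_mul, coeff_succ_X_mul, coeff_iv_pow_succ one_ne_zero]
    simp
    congr 1
    ring

theorem choose_three (n : ℕ) : 6 * Nat.choose (n + 2) 3 = (n + 2) * (n + 1) * n := by
  have h1 := Nat.add_one_mul_choose_eq (n + 1) 2
  have h2 := Nat.add_one_mul_choose_eq n 1
  simp only [Nat.choose_one_right] at h2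
  nlinarith

theorem U_v : U v = 3 * v := by
  ext n
  rw [coeff_U, coeff_v]
  have : (3 * v : ℤ⟦X⟧) = ((3 : ℤ) : ℤ⟦X⟧) * v := by norm_num
  rw [this, coeff_int_mul, coeff_v]
  push_cast
  ring

theorem U_v_sq : U (v ^ 2) = 4 * v + 27 * v ^ 2 := by
  ext n
  rw [coeff_U, coeff_v_sq]
  have : (4 * v + 27 * v ^ 2 : ℤ⟦X⟧) = ((4 : ℤ) : ℤ⟦X⟧) * v + ((27 : ℤ) : ℤ⟦X⟧) * v ^ 2 := by
    norm_num
  rw [this, map_add, coeff_int_mul, coeff_int_mul, coeff_v, coeff_v_sq]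
  rcases n with _ | n
  · simp [Nat.choose]
  · have h1 := choose_three (3 * n + 2)
    have h2 := choose_three n
    have e1 : 3 * (n + 1) + 1 = 3 * n + 2 + 2 := by ring
    have e2 : n + 1 + 1 = n + 2 := by ring
    rw [e1, e2]
    have h1' : (6 : ℤ) * ((Nat.choose (3 * n + 2 + 2) 3 : ℕ) : ℤ) =
      (3 * n + 2 + 2) * (3 * n + 2 + 1) * (3 * n + 2) := by exact_mod_cast h1
    have h2' : (6 : ℤ) * ((Nat.choose (n + 2) 3 : ℕ) : ℤ) = (n + 2) * (n + 1) * n := by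
      exact_mod_cast h2
    push_cast
    linarith [h1', h2', mul_comm (n : ℤ) n, show (3 * (n:ℤ) + 2 + 2) * (3 * n + 2 + 1) * (3 * n + 2)
      = 24 * (n + 1) + 27 * ((n + 2) * (n + 1) * n) by ring]

theorem U_pow_add_three (k : ℕ) :
    U (v ^ (k + 3)) = v * (9 * U (v ^ (k + 2)) + 6 * U (v ^ (k + 1)) + U (v ^ k)) := by
  have e : v ^ (k + 3) = ex v * (((9 : ℤ) : ℤ⟦X⟧) * v ^ (k + 2) + ((6 : ℤ) : ℤ⟦X⟧) * v ^ (k + 1) +
      v ^ k) := by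
    calc v ^ (k + 3) = v ^ k * v ^ 3 := by ring
      _ = v ^ k * (ex v * (1 + 3 * v) ^ 2) := by rw [← cubic]
      _ = _ := by push_cast; ring
  rw [e, U_ex_mul, map_add, map_add, U_int_mul, U_int_mul]
  norm_num

/-- the recurrence for `U ((1 + 3 v)^m)` -/
theorem U_g_pow (m : ℕ) : U ((1 + 3 * v) ^ (m + 3)) = (3 + 27 * v) * U ((1 + 3 * v) ^ (m + 2)) -
    3 * U ((1 + 3 * v) ^ (m + 1)) + U ((1 + 3 * v) ^ m) := by
  have e : (1 + 3 * v) ^ (m + 3) = ((3 : ℤ) : ℤ⟦X⟧) * (1 + 3 * v) ^ (m + 2) +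
      ex v * (((27 : ℤ) : ℤ⟦X⟧) * (1 + 3 * v) ^ (m + 2)) +
      ((-3 : ℤ) : ℤ⟦X⟧) * (1 + 3 * v) ^ (m + 1) + (1 + 3 * v) ^ m := by
    have h : (27 : ℤ⟦X⟧) * v ^ 3 = 27 * (ex v * (1 + 3 * v) ^ 2) := by rw [← cubic]
    have h2 : (1 + 3 * v : ℤ⟦X⟧) ^ (m + 3) = (1 + 3 * v) ^ m * (27 * v ^ 3) +
      (1 + 3 * v) ^ m * (3 * (1 + 3 * v) ^ 2 - 3 * (1 + 3 * v) + 1) := by ring
    rw [h2, h]
    push_cast
    ring
  rw [e, map_add, map_add, map_add, U_int_mul, U_ex_mul, U_int_mul, U_int_mul]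
  push_cast
  ring

end Pool.Agent.U962.DM
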