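import Pool.Agent.U962.DM.Basic

/-!
# `U ((1 + 3 v)^m)` as a polynomial in `v`
-/

set_option autoImplicit false

namespace Pool.Agent.U962.DM

open PowerSeries Finset

/-- the coefficients of `U ((1 + 3 v)^m)` as a polynomial in `v` -/
def a : ℕ → ℕ → ℤ
  | 0, _ => 1
  | j + 1, m => 9 * 27 ^ j * (3 * (Nat.choose (m + 2 * j + 2) (3 * j + 3) : ℕ) -
      2 * (Nat.choose (m + 2 * j + 1) (3 * j + 2) : ℕ))

theorem pascal3 (n k : ℕ) : ((Nat.choose (n + 3) (k + 3) : ℕ) : ℤ) =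
    3 * (Nat.choose (n + 2) (k + 3) : ℕ) - 3 * (Nat.choose (n + 1) (k + 3) : ℕ) +
      (Nat.choose n (k + 3) : ℕ) + (Nat.choose n k : ℕ) := by
  have h1 := Nat.choose_succ_succ' (n + 2) (k + 2)
  have h2 := Nat.choose_succ_succ' (n + 1) (k + 2)
  have h3 := Nat.choose_succ_succ' n (k + 2)
  have h4 := Nat.choose_succ_succ' (n + 1) (k + 1)
  have h5 := Nat.choose_succ_succ' n (k + 1)
  have h6 := Nat.choose_succ_succ' n k
  have e1 : n + 2 + 1 = n + 3 := rfl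
  have e2 : k + 2 + 1 = k + 3 := rfl
  have e3 : n + 1 + 1 = n + 2 := rfl
  have e4 : k + 1 + 1 = k + 2 := rfl
  simp only [e1, e2, e3, e4] at h1 h2 h3 h4 h5 h6
  omega

theorem pascal2 (n : ℕ) : ((Nat.choose (n + 3) 2 : ℕ) : ℤ) =
    3 * (Nat.choose (n + 2) 2 : ℕ) - 3 * (Nat.choose (n + 1) 2 : ℕ) +
      (Nat.choose n 2 : ℕ) := by
  have h1 := Nat.choose_succ_succ' (n + 2) 1
  have h2 := Nat.choose_succ_succ' (n + 1) 1
  have h3 := Nat.choose_succ_succ' n 1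
  simp only [Nat.choose_one_right] at h1 h2 h3
  have e1 : n + 2 + 1 = n + 3 := rfl
  have e3 : n + 1 + 1 = n + 2 := rfl
  have e4 : 1 + 1 = 2 := rfl
  simp only [e1, e3, e4] at h1 h2 h3
  omega

theorem a_rec (j m : ℕ) : a (j + 1) (m + 3) = 3 * a (j + 1) (m + 2) - 3 * a (j + 1) (m + 1) +
    a (j + 1) m + 27 * a j (m + 2) := by
  have h1 := pascal3 (m + 2 * j + 2) (3 * j)
  have e1 : m + 3 + 2 * j + 2 = m + 2 * j + 2 + 3 := by ring
  have e2 : m + 2 + 2 * j + 2 = m + 2 * j + 2 + 2 := by ring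
  have e3 : m + 1 + 2 * j + 2 = m + 2 * j + 2 + 1 := by ring
  rcases j with _ | i
  · have h2 := pascal2 (m + 1)
    simp only [a, mul_zero, add_zero, zero_add, pow_zero, mul_one] at h1 h2 ⊢
    have f1 : m + 3 + 2 = m + 2 + 3 := by ring
    have f2 : m + 2 + 2 = m + 2 + 2 := by ring
    have f3 : m + 1 + 2 = m + 2 + 1 := by ring
    have f4 : m + 3 + 1 = m + 1 + 3 := by ring
    have f5 : m + 2 + 1 = m + 1 + 2 := by ring
    have f6 : m + 1 + 1 = m + 1 + 1 := by ring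
    rw [f1, f4, h1, h2, f3, f5]
    simp only [Nat.choose_zero_right]
    push_cast
    ring
  · have h2 := pascal3 (m + 2 * i + 3) (3 * i + 2)
    simp only [a]
    have f1 : m + 3 + 2 * (i + 1) + 2 = m + 2 * (i + 1) + 2 + 3 := by ring
    have f2 : m + 2 + 2 * (i + 1) + 2 = m + 2 * (i + 1) + 2 + 2 := by ring
    have f3 : m + 1 + 2 * (i + 1) + 2 = m + 2 * (i + 1) + 2 + 1 := by ring
    have f4 : m + 3 + 2 * (i + 1) + 1 = m + 2 * i + 3 + 3 := by ring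
    have f5 : m + 2 + 2 * (i + 1) + 1 = m + 2 * i + 3 + 2 := by ring
    have f6 : m + 1 + 2 * (i + 1) + 1 = m + 2 * i + 3 + 1 := by ring
    have f7 : m + 2 * (i + 1) + 1 = m + 2 * i + 3 := by ring
    have f8 : 3 * (i + 1) + 2 = 3 * i + 2 + 3 := by ring
    have f9 : m + 2 + 2 * i + 1 = m + 2 * i + 3 := by ring
    have f10 : m + 2 + 2 * i + 2 = m + 2 * (i + 1) + 2 := by ring
    have f11 : 3 * i + 3 = 3 * (i + 1) := by ring
    rw [f1, f2, f3, f4, f5, f6, f7, f8, f9, f10, f11, h1, h2]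
    ring

theorem a_eq_zero {j m : ℕ} (h : m < j) : a j m = 0 := by
  rcases j with _ | j
  · omega
  · simp only [a]
    rw [Nat.choose_eq_zero_of_lt (by omega), Nat.choose_eq_zero_of_lt (by omega)]
    simp

/-- the polynomial in `v` -/
noncomputable def S (N m : ℕ) : ℤ⟦X⟧ := ∑ j ∈ range (N + 1), ((a j m : ℤ) : ℤ⟦X⟧) * v ^ j

theorem S_eq {N m : ℕ} (h : m ≤ N) : S N m = S m m := by
  induction N, h using Nat.le_induction with
  | base => rfl
  | succ N hN ih =>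
    rw [S, sum_range_succ, ← S, ih, a_eq_zero (by omega)]
    simp

theorem S_rec {N m : ℕ} (h : m + 3 ≤ N) : S N (m + 3) = (3 + 27 * v) * S N (m + 2) -
    3 * S N (m + 1) + S N m := by
  have hS : ∀ k, S N k = ∑ j ∈ range N, ((a (j + 1) k : ℤ) : ℤ⟦X⟧) * v ^ (j + 1) + 1 := by
    intro k
    rw [S, sum_range_succ']
    simp [a]
  have hQ : v * S N (m + 2) = ∑ j ∈ range N, ((a j (m + 2) : ℤ) : ℤ⟦X⟧) * v ^ (j + 1) := by
    rw [S, sum_range_succ, a_eq_zero (by omega), mul_add, mul_sum]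
    rw [Int.cast_zero, zero_mul, mul_zero, add_zero]
    apply sum_congr rfl
    intro j _
    ring
  have hP : ∑ j ∈ range N, ((a (j + 1) (m + 3) : ℤ) : ℤ⟦X⟧) * v ^ (j + 1) =
      3 * ∑ j ∈ range N, ((a (j + 1) (m + 2) : ℤ) : ℤ⟦X⟧) * v ^ (j + 1) -
      3 * ∑ j ∈ range N, ((a (j + 1) (m + 1) : ℤ) : ℤ⟦X⟧) * v ^ (j + 1) +
      ∑ j ∈ range N, ((a (j + 1) m : ℤ) : ℤ⟦X⟧) * v ^ (j + 1) +
      27 * ∑ j ∈ range N, ((a j (m + 2) : ℤ) : ℤ⟦X⟧) * v ^ (j + 1) := by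
    simp only [mul_sum, ← sum_add_distrib, ← sum_sub_distrib]
    apply sum_congr rfl
    intro j _
    rw [a_rec]
    push_cast
    ring
  calc S N (m + 3) = 3 * S N (m + 2) - 3 * S N (m + 1) + S N m + 27 * (v * S N (m + 2)) := by
        rw [hQ, hS (m + 3), hS (m + 2), hS (m + 1), hS m, hP]
        ring
    _ = _ := by ring

theorem U_g_pow_eq (m : ℕ) : U ((1 + 3 * v) ^ m) = S m m := by
  have h : ∀ m : ℕ, U ((1 + 3 * v) ^ m) = S m m ∧
      U ((1 + 3 * v) ^ (m + 1)) = S (m + 1) (m + 1) ∧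
      U ((1 + 3 * v) ^ (m + 2)) = S (m + 2) (m + 2) := by
    intro m
    induction m with
    | zero =>
      refine ⟨?_, ?_, ?_⟩
      · simp [S, a, U_one]
      · have e : (1 + 3 * v : ℤ⟦X⟧) ^ (0 + 1) = 1 + ((3 : ℤ) : ℤ⟦X⟧) * v := by
          push_cast; ring
        rw [e, map_add, U_int_mul, U_one, U_v]
        simp [S, a, sum_range_succ]
        ring
      · have e : (1 + 3 * v : ℤ⟦X⟧) ^ (0 + 2) = 1 + ((6 : ℤ) : ℤ⟦X⟧) * v +
            ((9 : ℤ) : ℤ⟦X⟧) * v ^ 2 := by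
          push_cast; ring
        rw [e, map_add, map_add, U_int_mul, U_int_mul, U_one, U_v, U_v_sq]
        have h1 : Nat.choose 4 3 = 4 := rfl
        have h2 : Nat.choose 3 2 = 3 := rfl
        simp [S, a, sum_range_succ, h1, h2]
        ring
    | succ m ih =>
      obtain ⟨h0, h1, h2⟩ := ih
      refine ⟨h1, h2, ?_⟩
      have e : m + 1 + 2 = m + 3 := rfl
      rw [e, U_g_pow, h0, h1, h2, S_rec le_rfl, S_eq (show m + 2 ≤ m + 3 by omega),
        S_eq (show m + 1 ≤ m + 3 by omega), S_eq (show m ≤ m + 3 by omega)]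
  exact (h m).1

theorem desc_eq (j n : ℕ) : ∃ R : ℕ, Nat.descFactorial (n + 1 + 2 * j + 1) (3 * j + 2) =
    (n + 2) * (n + 1) * R := by
  have h := Nat.descFactorial_mul_descFactorial (n := n + 1 + 2 * j + 1) (k := 2 * j)
    (m := 3 * j + 2) (by omega)
  have e1 : n + 1 + 2 * j + 1 - 2 * j = n + 1 + 1 := by omega
  have e2 : 3 * j + 2 - 2 * j = j + 1 + 1 := by omega
  rw [e1, e2, Nat.succ_descFactorial_succ, Nat.succ_descFactorial_succ] at h
  exact ⟨Nat.descFactorial n j * Nat.descFactorial (n + 1 + 2 * j + 1) (2 * j), by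
    rw [← h]; ring⟩

theorem a_fact (j m : ℕ) (hm : 1 ≤ m) : ∃ R : ℕ, a (j + 1) m * ((3 * (j + 1)).factorial : ℕ) =
    27 ^ (j + 1) * (m : ℤ) ^ 2 * (m + 1) * R := by
  obtain ⟨n, rfl⟩ : ∃ n, m = n + 1 := ⟨m - 1, by omega⟩
  obtain ⟨R, hR⟩ := desc_eq j n
  refine ⟨R, ?_⟩
  have d1 := Nat.descFactorial_eq_factorial_mul_choose (n + 1 + 2 * j + 2) (3 * j + 3)
  have d2 := Nat.descFactorial_eq_factorial_mul_choose (n + 1 + 2 * j + 1) (3 * j + 2)
  have d3 := Nat.succ_descFactorial_succ (n + 1 + 2 * j + 1) (3 * j + 2)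
  have f1 : n + 1 + 2 * j + 1 + 1 = n + 1 + 2 * j + 2 := rfl
  have f2 : 3 * j + 2 + 1 = 3 * j + 3 := rfl
  have d4 : (3 * j + 3).factorial = (3 * j + 3) * (3 * j + 2).factorial :=
    Nat.factorial_succ (3 * j + 2)
  rw [f1, f2] at d3
  have f3 : 3 * (j + 1) = 3 * j + 3 := by ring
  rw [f3]
  simp only [a]
  have z1 : (((3 * j + 3).factorial : ℕ) : ℤ) * (Nat.choose (n + 1 + 2 * j + 2) (3 * j + 3) : ℕ) =
      (n + 1 + 2 * j + 2) * ((n + 2) * (n + 1) * R) := by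
    rw [hR] at d3
    rw [d3] at d1
    exact_mod_cast d1.symm
  have z2 : (((3 * j + 3).factorial : ℕ) : ℤ) * (Nat.choose (n + 1 + 2 * j + 1) (3 * j + 2) : ℕ) =
      (3 * j + 3) * ((n + 2) * (n + 1) * R) := by
    rw [hR] at d2
    rw [d4]
    push_cast
    have : (((n + 2) * (n + 1) * R : ℕ) : ℤ) = ((3 * j + 2).factorial : ℕ) *
      (Nat.choose (n + 1 + 2 * j + 1) (3 * j + 2) : ℕ) := by exact_mod_cast d2
    push_cast at this
    rw [this]
    ring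
  have : 9 * 27 ^ j * (3 * ((Nat.choose (n + 1 + 2 * j + 2) (3 * j + 3) : ℕ) : ℤ) -
      2 * (Nat.choose (n + 1 + 2 * j + 1) (3 * j + 2) : ℕ)) * (((3 * j + 3).factorial : ℕ) : ℤ) =
      9 * 27 ^ j * (3 * ((((3 * j + 3).factorial : ℕ) : ℤ) *
        (Nat.choose (n + 1 + 2 * j + 2) (3 * j + 3) : ℕ)) -
      2 * ((((3 * j + 3).factorial : ℕ) : ℤ) *
        (Nat.choose (n + 1 + 2 * j + 1) (3 * j + 2) : ℕ))) := by ring
  rw [this, z1, z2]
  push_cast
  ring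

theorem a_one (m : ℕ) (hm : 1 ≤ m) : 2 * a 1 m = 9 * (m : ℤ) ^ 2 * (m + 1) := by
  obtain ⟨n, rfl⟩ : ∃ n, m = n + 1 := ⟨m - 1, by omega⟩
  have h1 := choose_three (n + 1)
  have h2 := Nat.add_one_mul_choose_eq (n + 1) 1
  simp only [Nat.choose_one_right] at h2
  simp only [a, mul_zero, add_zero, zero_add, pow_zero, mul_one]
  have z1 : (6 : ℤ) * (Nat.choose (n + 1 + 2) 3 : ℕ) = (n + 1 + 2) * (n + 1 + 1) * (n + 1) := by
    exact_mod_cast h1
  have z2 : ((n : ℤ) + 1 + 1) * (n + 1) = (Nat.choose (n + 1 + 1) 2 : ℕ) * 2 := by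
    exact_mod_cast h2
  push_cast
  linear_combination 9 * z1 + 18 * z2

end Pool.Agent.U962.DM
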