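import Pool.Agent.U962.DM.Coef

/-!
# The lattices `L e`, spanned by `3^(e + clog 3 k) v^k`, `k ≥ 1`
-/

set_option autoImplicit false

namespace Pool.Agent.U962.DM

open PowerSeries Finset

/-- span of `3^(e + clog 3 k) v^k`, `k ≥ 1` -/
noncomputable def L (e : ℕ) : Submodule ℤ ℤ⟦X⟧ := Submodule.span ℤ
  {f | ∃ k : ℕ, 1 ≤ k ∧ f = (((3 : ℤ) ^ (e + Nat.clog 3 k) : ℤ) : ℤ⟦X⟧) * v ^ k}

theorem mem_L {e k : ℕ} (hk : 1 ≤ k) {c : ℤ} (h : (3 : ℤ) ^ (e + Nat.clog 3 k) ∣ c) :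
    (c : ℤ⟦X⟧) * v ^ k ∈ L e := by
  obtain ⟨b, rfl⟩ := h
  have : (((3 : ℤ) ^ (e + Nat.clog 3 k) * b : ℤ) : ℤ⟦X⟧) * v ^ k =
      b • ((((3 : ℤ) ^ (e + Nat.clog 3 k) : ℤ) : ℤ⟦X⟧) * v ^ k) := by
    rw [zsmul_eq_mul]
    push_cast
    ring
  rw [this]
  exact Submodule.smul_mem _ _ (Submodule.subset_span ⟨k, hk, rfl⟩)

theorem mem_L_pow {e k f : ℕ} (hk : 1 ≤ k) (h : e + Nat.clog 3 k ≤ f) (c : ℤ) :
    (((3 : ℤ) ^ f * c : ℤ) : ℤ⟦X⟧) * v ^ k ∈ L e :=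
  mem_L hk (Dvd.dvd.mul_right (pow_dvd_pow 3 h) c)

theorem L_int {e : ℕ} {x : ℤ⟦X⟧} (c : ℤ) (hx : x ∈ L e) : (c : ℤ⟦X⟧) * x ∈ L e := by
  rw [← zsmul_eq_mul]
  exact Submodule.smul_mem _ _ hx

theorem L_pow_mul {e f : ℕ} {x : ℤ⟦X⟧} {c : ℤ} (hc : (3 : ℤ) ^ f ∣ c) (hx : x ∈ L e) :
    (c : ℤ⟦X⟧) * x ∈ L (e + f) := by
  obtain ⟨b, rfl⟩ := hc
  induction hx using Submodule.span_induction with
  | mem x h =>
    obtain ⟨k, hk, rfl⟩ := h
    have : (((3 : ℤ) ^ f * b : ℤ) : ℤ⟦X⟧) *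
        ((((3 : ℤ) ^ (e + Nat.clog 3 k) : ℤ) : ℤ⟦X⟧) * v ^ k) =
        (((3 : ℤ) ^ (e + f + Nat.clog 3 k) * b : ℤ) : ℤ⟦X⟧) * v ^ k := by
      push_cast
      ring
    rw [this]
    exact mem_L_pow hk le_rfl b
  | zero => rw [mul_zero]; exact Submodule.zero_mem _
  | add x y _ _ hx hy => rw [mul_add]; exact Submodule.add_mem _ hx hy
  | smul c x _ hx => rw [mul_smul_comm]; exact Submodule.smul_mem _ _ hx

theorem L_mono {e f : ℕ} (h : e ≤ f) : L f ≤ L e := by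
  rw [L, Submodule.span_le]
  rintro x ⟨k, hk, rfl⟩
  exact mem_L hk (pow_dvd_pow 3 (by omega))

theorem clog_add {j k : ℕ} (hj : 1 ≤ j) (hk : 1 ≤ k) :
    Nat.clog 3 (j + k) ≤ 1 + Nat.clog 3 j + Nat.clog 3 k := by
  apply Nat.clog_le_of_le_pow
  have h1 := Nat.le_pow_clog (b := 3) (by norm_num) j
  have h2 := Nat.le_pow_clog (b := 3) (by norm_num) k
  calc j + k ≤ 3 * (j * k) := by nlinarith
    _ ≤ 3 * (3 ^ Nat.clog 3 j * 3 ^ Nat.clog 3 k) :=
      Nat.mul_le_mul_left _ (Nat.mul_le_mul h1 h2)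
    _ = _ := by ring

theorem L_mul {e f : ℕ} {x y : ℤ⟦X⟧} (hx : x ∈ L (e + 1)) (hy : y ∈ L f) : x * y ∈ L (e + f) := by
  induction hx using Submodule.span_induction with
  | mem x h =>
    obtain ⟨k, hk, rfl⟩ := h
    induction hy using Submodule.span_induction with
    | mem y h =>
      obtain ⟨j, hj, rfl⟩ := h
      have : (((3 : ℤ) ^ (e + 1 + Nat.clog 3 k) : ℤ) : ℤ⟦X⟧) * v ^ k *
          ((((3 : ℤ) ^ (f + Nat.clog 3 j) : ℤ) : ℤ⟦X⟧) * v ^ j) =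
          (((3 : ℤ) ^ (e + 1 + Nat.clog 3 k + (f + Nat.clog 3 j)) * 1 : ℤ) : ℤ⟦X⟧) *
            v ^ (k + j) := by
        push_cast
        ring
      rw [this]
      apply mem_L_pow (by omega)
      have := clog_add hk hj
      omega
    | zero => rw [mul_zero]; exact Submodule.zero_mem _
    | add x y _ _ hx hy => rw [mul_add]; exact Submodule.add_mem _ hx hy
    | smul c x _ hx => rw [mul_smul_comm]; exact Submodule.smul_mem _ _ hx
  | zero => rw [zero_mul]; exact Submodule.zero_mem _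
  | add x y _ _ hx hy => rw [add_mul]; exact Submodule.add_mem _ hx hy
  | smul c x _ hx => rw [smul_mul_assoc]; exact Submodule.smul_mem _ _ hx

/-- span of `3^(3j - k - 1) v^j`, `j ≥ 1`, `3j ≥ k` -/
noncomputable def M (k : ℕ) : Submodule ℤ ℤ⟦X⟧ := Submodule.span ℤ
  {f | ∃ j : ℕ, 1 ≤ j ∧ k ≤ 3 * j ∧ f = (((3 : ℤ) ^ (3 * j - k - 1) : ℤ) : ℤ⟦X⟧) * v ^ j}

theorem mem_M {k j : ℕ} (hj : 1 ≤ j) (hk : k ≤ 3 * j) {c : ℤ} (h : (3 : ℤ) ^ (3 * j - k - 1) ∣ c) :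
    (c : ℤ⟦X⟧) * v ^ j ∈ M k := by
  obtain ⟨b, rfl⟩ := h
  have : (((3 : ℤ) ^ (3 * j - k - 1) * b : ℤ) : ℤ⟦X⟧) * v ^ j =
      b • ((((3 : ℤ) ^ (3 * j - k - 1) : ℤ) : ℤ⟦X⟧) * v ^ j) := by
    rw [zsmul_eq_mul]
    push_cast
    ring
  rw [this]
  exact Submodule.smul_mem _ _ (Submodule.subset_span ⟨j, hj, hk, rfl⟩)

theorem M_step {k r f : ℕ} {c : ℤ} (hr : r ≤ 3) (hf : f + r = 3) (hc : (3 : ℤ) ^ f ∣ c)
    {x : ℤ⟦X⟧} (hx : x ∈ M (k + f)) : (c : ℤ⟦X⟧) * (v * x) ∈ M (k + 3) := by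
  induction hx using Submodule.span_induction with
  | mem x h =>
    obtain ⟨j, hj, hk, rfl⟩ := h
    have : (c : ℤ⟦X⟧) * (v * ((((3 : ℤ) ^ (3 * j - (k + f) - 1) : ℤ) : ℤ⟦X⟧) * v ^ j)) =
        ((c * (3 : ℤ) ^ (3 * j - (k + f) - 1) : ℤ) : ℤ⟦X⟧) * v ^ (j + 1) := by
      push_cast
      ring
    rw [this]
    apply mem_M (by omega) (by omega)
    obtain ⟨b, rfl⟩ := hc
    have : (3 : ℤ) ^ f * b * 3 ^ (3 * j - (k + f) - 1) =
      3 ^ (f + (3 * j - (k + f) - 1)) * b := by rw [pow_add]; ring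
    rw [this]
    exact Dvd.dvd.mul_right (pow_dvd_pow 3 (by omega)) b
  | zero => rw [mul_zero, mul_zero]; exact Submodule.zero_mem _
  | add x y _ _ hx hy => rw [mul_add, mul_add]; exact Submodule.add_mem _ hx hy
  | smul c x _ hx => rw [mul_smul_comm, mul_smul_comm]; exact Submodule.smul_mem _ _ hx

theorem U_pow_mem (k : ℕ) : U (v ^ (k + 1)) ∈ M (k + 1) := by
  have h : ∀ k : ℕ, U (v ^ (k + 1)) ∈ M (k + 1) ∧ U (v ^ (k + 2)) ∈ M (k + 2) ∧
      U (v ^ (k + 3)) ∈ M (k + 3) := by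
    intro k
    induction k with
    | zero =>
      have h1 : U (v ^ (0 + 1)) ∈ M (0 + 1) := by
        have e : U (v ^ (0 + 1)) = ((3 : ℤ) : ℤ⟦X⟧) * v ^ 1 := by
          rw [zero_add, pow_one, U_v]; norm_num
        rw [e]
        exact mem_M (by norm_num) (by norm_num) (by norm_num)
      have h2 : U (v ^ (0 + 2)) ∈ M (0 + 2) := by
        have e : U (v ^ (0 + 2)) = ((4 : ℤ) : ℤ⟦X⟧) * v ^ 1 + ((27 : ℤ) : ℤ⟦X⟧) * v ^ 2 := by
          rw [zero_add, U_v_sq]; norm_num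
        rw [e]
        exact Submodule.add_mem _ (mem_M (by norm_num) (by norm_num) (by norm_num))
          (mem_M (by norm_num) (by norm_num) (by norm_num))
      refine ⟨h1, h2, ?_⟩
      have e : U (v ^ (0 + 3)) = ((9 : ℤ) : ℤ⟦X⟧) * (v * U (v ^ (0 + 2))) +
          ((6 : ℤ) : ℤ⟦X⟧) * (v * U (v ^ (0 + 1))) + ((1 : ℤ) : ℤ⟦X⟧) * v ^ 1 := by
        rw [U_pow_add_three, pow_zero, U_one]
        push_cast
        ring
      rw [e]
      refine Submodule.add_mem _ (Submodule.add_mem _ ?_ ?_) ?_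
      · exact M_step (r := 1) (f := 2) (by norm_num) (by norm_num) (by norm_num) h2
      · exact M_step (r := 2) (f := 1) (by norm_num) (by norm_num) (by norm_num) h1
      · exact mem_M (by norm_num) (by norm_num) (by norm_num)
    | succ k ih =>
      obtain ⟨h1, h2, h3⟩ := ih
      refine ⟨h2, h3, ?_⟩
      have e : U (v ^ (k + 1 + 3)) = ((9 : ℤ) : ℤ⟦X⟧) * (v * U (v ^ (k + 1 + 2))) +
          ((6 : ℤ) : ℤ⟦X⟧) * (v * U (v ^ (k + 1 + 1))) +
          ((1 : ℤ) : ℤ⟦X⟧) * (v * U (v ^ (k + 1))) := by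
        rw [U_pow_add_three]
        push_cast
        ring
      rw [e]
      refine Submodule.add_mem _ (Submodule.add_mem _ ?_ ?_) ?_
      · exact M_step (k := k + 1) (r := 1) (f := 2) (by norm_num) (by norm_num) (by norm_num) h3
      · exact M_step (k := k + 1) (r := 2) (f := 1) (by norm_num) (by norm_num) (by norm_num) h2
      · exact M_step (k := k + 1) (r := 3) (f := 0) (by norm_num) (by norm_num) (by norm_num) h1
  exact (h k).1

theorem clog_ineq {j k : ℕ} (hj : 1 ≤ j) (hk : 1 ≤ k) (h : k ≤ 3 * j) :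
    1 + Nat.clog 3 j ≤ Nat.clog 3 k + (3 * j - k - 1) := by
  suffices h0 : 3 * j ≤ 3 ^ (Nat.clog 3 k + (3 * j - k - 1)) by
    set E := Nat.clog 3 k + (3 * j - k - 1)
    rcases E with _ | E
    · simp at h0; omega
    · rw [pow_succ] at h0
      have : Nat.clog 3 j ≤ E := Nat.clog_le_of_le_pow (by omega)
      omega
  have h2 := Nat.le_pow_clog (b := 3) (by norm_num) k
  set c := Nat.clog 3 k with hc
  obtain ⟨r, hr⟩ : ∃ r, 3 * j = k + r := ⟨3 * j - k, by omega⟩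
  rw [hr]
  rcases r with _ | _ | r
  · simpa using h2
  · have e : k + (0 + 1) - k - 1 = 0 := by omega
    rw [e, add_zero]
    rcases Nat.eq_or_lt_of_le h2 with h4 | h4
    · exfalso
      rcases c with _ | c
      · simp at h4; omega
      · rw [pow_succ] at h4
        omega
    · omega
  · have e : k + (r + 1 + 1) - k - 1 = r + 1 := by omega
    rw [e, pow_add]
    have h5 : r + 2 < 3 ^ (r + 1) := by
      clear hr
      induction r with
      | zero => norm_num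
      | succ r ih => rw [pow_succ]; omega
    calc k + (r + 1 + 1) ≤ k * 3 ^ (r + 1) := by nlinarith
      _ ≤ 3 ^ c * 3 ^ (r + 1) := Nat.mul_le_mul_right _ h2

theorem U_mem {e : ℕ} {x : ℤ⟦X⟧} (hx : x ∈ L e) : U x ∈ L (e + 1) := by
  induction hx using Submodule.span_induction with
  | mem x h =>
    obtain ⟨k, hk, rfl⟩ := h
    rw [U_int_mul]
    obtain ⟨k, rfl⟩ : ∃ i, k = i + 1 := ⟨k - 1, by omega⟩
    have hy := U_pow_mem k
    generalize U (v ^ (k + 1)) = y at hy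
    induction hy using Submodule.span_induction with
    | mem x h =>
      obtain ⟨j, hj, hkj, rfl⟩ := h
      have : (((3 : ℤ) ^ (e + Nat.clog 3 (k + 1)) : ℤ) : ℤ⟦X⟧) *
          ((((3 : ℤ) ^ (3 * j - (k + 1) - 1) : ℤ) : ℤ⟦X⟧) * v ^ j) =
          (((3 : ℤ) ^ (e + Nat.clog 3 (k + 1) + (3 * j - (k + 1) - 1)) * 1 : ℤ) : ℤ⟦X⟧) *
            v ^ j := by
        push_cast
        ring
      rw [this]
      apply mem_L_pow hj
      have := clog_ineq hj hk hkj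
      omega
    | zero => rw [mul_zero]; exact Submodule.zero_mem _
    | add x y _ _ hx hy => rw [mul_add]; exact Submodule.add_mem _ hx hy
    | smul c x _ hx => rw [mul_smul_comm]; exact Submodule.smul_mem _ _ hx
  | zero => rw [map_zero]; exact Submodule.zero_mem _
  | add x y _ _ hx hy => rw [map_add]; exact Submodule.add_mem _ hx hy
  | smul c x _ hx => rw [map_smul]; exact Submodule.smul_mem _ _ hx

theorem dvd_coeff {e : ℕ} {x : ℤ⟦X⟧} (hx : x ∈ L e) (f : ℤ⟦X⟧) (n : ℕ) :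
    (3 : ℤ) ^ e ∣ coeff n (x * f) := by
  induction hx using Submodule.span_induction with
  | mem x h =>
    obtain ⟨k, hk, rfl⟩ := h
    rw [mul_assoc, coeff_int_mul]
    exact Dvd.dvd.mul_right (pow_dvd_pow 3 (by omega)) _
  | zero => simp
  | add x y _ _ hx hy => rw [add_mul, map_add]; exact dvd_add hx hy
  | smul c x _ hx =>
    rw [smul_mul_assoc, map_zsmul, smul_eq_mul]
    exact Dvd.dvd.mul_left hx c

end Pool.Agent.U962.DM
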