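import Pool.Agent.U962.DM.Lat

/-!
# The valuations of `d_m(3n) - d_m(n)` and `d_m(9n) - d_m(n)` for `p = 3`
-/

set_option autoImplicit false

namespace Pool.Agent.U962.DM

open PowerSeries Finset Pool.Agent.R443.PS

/-! ### The generating function -/

/-- partial products -/
noncomputable def Ps (m J : ℕ) : ℤ⟦X⟧ := iv 1 ^ m * ∏ j ∈ range J, iv (3 ^ j) ^ (2 * m)

theorem ex_iv_gen {n : ℕ} (hn : n ≠ 0) : ex (iv n) = iv (3 * n) := by
  have h := congrArg ex (mul_iv hn)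
  rw [map_mul, map_sub, map_one, map_pow, ex, expand_X, ← pow_mul] at h
  have h2 := eq_iv_pow (d := 3 * n) (k := 1) (by omega) (f := expand 3 three_ne_zero (iv n))
    (by rw [pow_one, mul_comm]; exact h)
  rw [ex, h2, pow_one]

theorem Ps_succ (m J : ℕ) : Ps m (J + 1) = ex (Ps m J) * (1 + 3 * v) ^ m := by
  rw [Ps, Ps, map_mul, map_pow, map_prod, prod_range_succ', ex_iv, pow_zero]
  have h : ∏ x ∈ range J, ex (iv (3 ^ x) ^ (2 * m)) = ∏ x ∈ range J, iv (3 ^ (x + 1)) ^ (2 * m) := by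
    apply prod_congr rfl
    intro j _
    rw [map_pow, ex_iv_gen (by positivity), pow_succ, mul_comm 3]
  rw [h]
  calc iv 1 ^ m * ((∏ x ∈ range J, iv (3 ^ (x + 1)) ^ (2 * m)) * iv 1 ^ (2 * m)) =
      (iv 1 ^ 3) ^ m * ∏ x ∈ range J, iv (3 ^ (x + 1)) ^ (2 * m) := by ring
    _ = ((1 + 3 * v) * iv 3) ^ m * ∏ x ∈ range J, iv (3 ^ (x + 1)) ^ (2 * m) := by
      rw [g_mul_iv3]
    _ = _ := by rw [mul_pow]; ring_nf

/-- the numbers `d_m(n)` for `p = 3` -/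
noncomputable def d3 (m n : ℕ) : ℤ := coeff n (Ps m (n + 1))

theorem coeff_Ps {m n J : ℕ} (h : n + 1 ≤ J) : coeff n (Ps m J) = d3 m n := by
  induction J, h using Nat.le_induction with
  | base => rfl
  | succ J hJ ih =>
    rw [← ih]
    have e : Ps m (J + 1) = iv (3 ^ J) ^ (2 * m) * Ps m J := by
      rw [Ps, Ps, prod_range_succ]
      ring
    rw [e, coeff_iv_pow_mul_of_lt]
    have : J < 3 ^ J := Nat.lt_pow_self (by norm_num)
    omega

/-- the generating function -/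
noncomputable def F (m : ℕ) : ℤ⟦X⟧ := mk fun n => d3 m n

theorem F_eq (m : ℕ) : F m = ex (F m) * (1 + 3 * v) ^ m := by
  ext n
  have h1 : coeff n (F m) = coeff n (ex (Ps m (n + 1)) * (1 + 3 * v) ^ m) := by
    rw [← Ps_succ, coeff_Ps (by omega), F, coeff_mk]
  rw [h1, ex, coeff_expand_mul' three_ne_zero, coeff_expand_mul' three_ne_zero]
  apply sum_congr rfl
  intro b hb
  rw [mem_range] at hb
  have : b ≤ n := by
    have := Nat.div_le_self n 3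
    omega
  rw [coeff_Ps (by omega), F, coeff_mk]

/-! ### The operator `T` -/

/-- `T f = U ((1 + 3 v)^m f)` -/
noncomputable def T (m : ℕ) : ℤ⟦X⟧ →ₗ[ℤ] ℤ⟦X⟧ := U ∘ₗ LinearMap.mulLeft ℤ ((1 + 3 * v) ^ m)

theorem T_apply (m : ℕ) (x : ℤ⟦X⟧) : T m x = U ((1 + 3 * v) ^ m * x) := rfl

theorem T_int_mul (m : ℕ) (c : ℤ) (f : ℤ⟦X⟧) : T m ((c : ℤ⟦X⟧) * f) = (c : ℤ⟦X⟧) * T m f := by
  rw [← zsmul_eq_mul, map_smul, zsmul_eq_mul]

theorem U_mul_F (m : ℕ) (x : ℤ⟦X⟧) : U (x * F m) = T m x * F m := by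
  have e : x * F m = ex (F m) * ((1 + 3 * v) ^ m * x) := by
    conv_lhs => rw [F_eq]
    ring
  rw [e, U_ex_mul, T_apply, mul_comm]

theorem U_iter_mul_F (m s : ℕ) (x : ℤ⟦X⟧) : U^[s] (x * F m) = (T m)^[s] x * F m := by
  induction s generalizing x with
  | zero => rfl
  | succ s ih => rw [Function.iterate_succ_apply, U_mul_F, ih, Function.iterate_succ_apply]

theorem coeff_U_iter (s n : ℕ) (f : ℤ⟦X⟧) : coeff n (U^[s] f) = coeff (3 ^ s * n) f := by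
  induction s generalizing f with
  | zero => simp
  | succ s ih =>
    rw [Function.iterate_succ_apply, ih, coeff_U]
    congr 1
    ring

theorem d3_eq (m s n : ℕ) : d3 m (3 ^ s * n) = coeff n ((T m)^[s] 1 * F m) := by
  rw [← U_iter_mul_F, coeff_U_iter, one_mul, F, coeff_mk]

theorem g_pow_mem {m e : ℕ} {x : ℤ⟦X⟧} (hx : x ∈ L e) : (1 + 3 * v) ^ m * x ∈ L e := by
  have h3 : (3 * v : ℤ⟦X⟧) ∈ L (0 + 1) := by
    have e : (3 * v : ℤ⟦X⟧) = ((3 : ℤ) : ℤ⟦X⟧) * v ^ 1 := by norm_num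
    rw [e]
    exact mem_L le_rfl (by norm_num)
  induction m with
  | zero => simpa using hx
  | succ m ih =>
    have e : (1 + 3 * v) ^ (m + 1) * x = (1 + 3 * v) ^ m * x + 3 * v * ((1 + 3 * v) ^ m * x) := by
      ring
    rw [e]
    have := L_mul h3 ih
    rw [zero_add] at this
    exact Submodule.add_mem _ ih this

theorem T_mem {m e : ℕ} {x : ℤ⟦X⟧} (hx : x ∈ L e) : T m x ∈ L (e + 1) := by
  rw [T_apply]
  exact U_mem (g_pow_mem hx)

theorem T_iter_mem {m e s : ℕ} {x : ℤ⟦X⟧} (hx : x ∈ L e) : (T m)^[s] x ∈ L (e + s) := by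
  induction s with
  | zero => exact hx
  | succ s ih =>
    rw [Function.iterate_succ_apply']
    exact T_mem ih

theorem T_v (m : ℕ) : ∃ r ∈ L 2, T m v = ((3 * (1 + m) : ℤ) : ℤ⟦X⟧) * v + r := by
  have hq : ∀ m : ℕ, v * ((1 + 3 * v) ^ m - 1 - ((3 * m : ℤ) : ℤ⟦X⟧) * v) ∈ L 1 := by
    intro m
    induction m with
    | zero => simp
    | succ m ih =>
      have e : v * ((1 + 3 * v) ^ (m + 1) - 1 - ((3 * (m + 1 : ℕ) : ℤ) : ℤ⟦X⟧) * v) =
          (1 + 3 * v) ^ 1 * (v * ((1 + 3 * v) ^ m - 1 - ((3 * m : ℤ) : ℤ⟦X⟧) * v)) +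
          ((3 ^ 2 * m : ℤ) : ℤ⟦X⟧) * v ^ 3 := by
        push_cast
        ring
      rw [e]
      refine Submodule.add_mem _ (g_pow_mem ih) (mem_L_pow (by norm_num) ?_ _)
      have : Nat.clog 3 3 ≤ 1 := Nat.clog_le_of_le_pow (by norm_num)
      omega
  refine ⟨((3 ^ 2 * m : ℤ) : ℤ⟦X⟧) * v ^ 1 + ((3 ^ 4 * m : ℤ) : ℤ⟦X⟧) * v ^ 2 +
    U (v * ((1 + 3 * v) ^ m - 1 - ((3 * m : ℤ) : ℤ⟦X⟧) * v)), ?_, ?_⟩
  · refine Submodule.add_mem _ (Submodule.add_mem _ ?_ ?_) (U_mem (hq m))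
    · exact mem_L_pow le_rfl (by simp) _
    · apply mem_L_pow (by norm_num)
      have : Nat.clog 3 2 ≤ 1 := Nat.clog_le_of_le_pow (by norm_num)
      omega
  · have e : (1 + 3 * v) ^ m * v = v + ((3 * m : ℤ) : ℤ⟦X⟧) * v ^ 2 +
        v * ((1 + 3 * v) ^ m - 1 - ((3 * m : ℤ) : ℤ⟦X⟧) * v) := by
      ring
    rw [T_apply, e, map_add, map_add, U_int_mul, U_v, U_v_sq]
    push_cast
    ring

theorem T_iter_v (m s : ℕ) : ∃ r ∈ L (s + 1),
    (T m)^[s] v = ((3 ^ s * (1 + m) ^ s : ℤ) : ℤ⟦X⟧) * v + r := by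
  induction s with
  | zero => exact ⟨0, Submodule.zero_mem _, by simp⟩
  | succ s ih =>
    obtain ⟨r, hr, h⟩ := ih
    obtain ⟨r', hr', h'⟩ := T_v m
    refine ⟨((3 ^ s * (1 + m) ^ s : ℤ) : ℤ⟦X⟧) * r' + T m r, ?_, ?_⟩
    · refine Submodule.add_mem _ ?_ (T_mem hr)
      have := L_pow_mul (f := s) (c := (3 ^ s * (1 + m) ^ s : ℤ)) (Dvd.intro _ rfl) hr'
      exact L_mono (by omega) this
    · rw [Function.iterate_succ_apply', h, map_add, T_int_mul, h']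
      push_cast
      ring

theorem T_iter_add (m s : ℕ) (x y : ℤ⟦X⟧) : (T m)^[s] (x + y) = (T m)^[s] x + (T m)^[s] y := by
  induction s generalizing x y with
  | zero => rfl
  | succ s ih => rw [Function.iterate_succ_apply, map_add, ih]; rfl

theorem T_iter_int (m s : ℕ) (c : ℤ) (x : ℤ⟦X⟧) :
    (T m)^[s] ((c : ℤ⟦X⟧) * x) = (c : ℤ⟦X⟧) * (T m)^[s] x := by
  induction s generalizing x with
  | zero => rfl
  | succ s ih => rw [Function.iterate_succ_apply, T_int_mul, ih]; rfl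

/-! ### `T 1 - 1` -/

/-- the exponent -/
def ee (m : ℕ) : ℕ := 2 * padicValNat 3 m + padicValNat 3 (m + 1) + 2

theorem a_dvd {J m : ℕ} (hJ : 2 ≤ J) (hm : 1 ≤ m) :
    (3 : ℤ) ^ (ee m + 1 + Nat.clog 3 J) ∣ a J m := by
  obtain ⟨j, rfl⟩ : ∃ j, J = j + 1 := ⟨J - 1, by omega⟩
  obtain ⟨R, hR⟩ := a_fact j m hm
  obtain ⟨t, u, hu, ht⟩ := Nat.exists_eq_pow_mul_and_not_dvd
    (Nat.factorial_ne_zero (3 * (j + 1))) 3 (by norm_num)
  have hfact : Fact (Nat.Prime 3) := ⟨Nat.prime_three⟩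
  have hu0 : u ≠ 0 := by rintro rfl; simp at hu
  have ht' : t = padicValNat 3 (j + 1).factorial + (j + 1) := by
    have h1 := padicValNat_factorial_mul (p := 3) (j + 1)
    rw [ht, padicValNat.mul (by positivity) hu0, padicValNat.prime_pow,
      padicValNat.eq_zero_of_not_dvd hu] at h1
    omega
  have h2 := sub_one_mul_padicValNat_factorial_lt_of_ne_zero (p := 3) (n := j + 1) (by omega)
  have h3 : 3 + Nat.clog 3 (j + 1) + t ≤ 3 * (j + 1) := by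
    rcases Nat.lt_or_ge j 2 with h | h
    · have hj : j = 1 := by omega
      subst hj
      have h4 : Nat.clog 3 (1 + 1) ≤ 1 := Nat.clog_le_of_le_pow (by norm_num)
      omega
    · have h4 : Nat.clog 3 (j + 1) ≤ j - 1 := by
        apply Nat.clog_le_of_le_pow
        obtain ⟨i, rfl⟩ : ∃ i, j = i + 2 := ⟨j - 2, by omega⟩
        have e : i + 2 - 1 = i + 1 := by omega
        rw [e]
        clear * -
        induction i with
        | zero => norm_num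
        | succ i ih => rw [pow_succ]; omega
      omega
  have hv1 : (3 : ℤ) ^ padicValNat 3 m ∣ (m : ℤ) := by
    exact_mod_cast (pow_padicValNat_dvd : 3 ^ padicValNat 3 m ∣ m)
  have hv2 : (3 : ℤ) ^ padicValNat 3 (m + 1) ∣ (m : ℤ) + 1 := by
    exact_mod_cast (pow_padicValNat_dvd : 3 ^ padicValNat 3 (m + 1) ∣ m + 1)
  obtain ⟨m1, h4⟩ := hv1
  obtain ⟨m2, h5⟩ := hv2
  have h6 : (3 : ℤ) ^ t * 3 ^ (ee m + 1 + Nat.clog 3 (j + 1)) ∣ 3 ^ t * (a (j + 1) m * u) := by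
    have e1 : (3 : ℤ) ^ t * (a (j + 1) m * u) = 27 ^ (j + 1) * (m : ℤ) ^ 2 * (m + 1) * R := by
      rw [← hR, ht]
      push_cast
      ring
    have e2 : (27 : ℤ) ^ (j + 1) * (m : ℤ) ^ 2 * (m + 1) * R =
        3 ^ (3 * (j + 1) + 2 * padicValNat 3 m + padicValNat 3 (m + 1)) * (m1 ^ 2 * m2 * R) := by
      rw [h5, h4, show (27 : ℤ) = 3 ^ 3 by norm_num, ← pow_mul]
      rw [pow_add, pow_add]
      ring
    rw [e1, e2, ← pow_add]
    apply Dvd.dvd.mul_right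
    apply pow_dvd_pow
    unfold ee
    omega
  have h7 := (mul_dvd_mul_iff_left (pow_ne_zero t (by norm_num : (3 : ℤ) ≠ 0))).mp h6
  have hcop : IsCoprime ((3 : ℤ) ^ (ee m + 1 + Nat.clog 3 (j + 1))) (u : ℤ) := by
    apply IsCoprime.pow_left
    have : Nat.Coprime 3 u := (Nat.Prime.coprime_iff_not_dvd Nat.prime_three).mpr hu
    exact_mod_cast Nat.isCoprime_iff_coprime.mpr this
  exact hcop.dvd_of_dvd_mul_right h7

theorem T_one (m : ℕ) (hm : 1 ≤ m) : ∃ r ∈ L (ee m + 1),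
    T m 1 = 1 + ((a 1 m : ℤ) : ℤ⟦X⟧) * v + r := by
  refine ⟨∑ j ∈ range m, ((a (j + 2) m : ℤ) : ℤ⟦X⟧) * v ^ (j + 2), ?_, ?_⟩
  · apply Submodule.sum_mem
    intro j _
    exact mem_L (by omega) (a_dvd (by omega) hm)
  · rw [T_apply, mul_one, U_g_pow_eq, ← S_eq (show m ≤ m + 1 by omega), S, sum_range_succ',
      sum_range_succ']
    simp [a]
    ring

end Pool.Agent.U962.DM
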